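import Mathlib

set_option autoImplicit false

namespace Pool.Agent.H.MP_ca7eb7_al

open Matrix Complex

variable {ι : Type} [Fintype ι] [DecidableEq ι]

theorem exists_unit_det (A : Matrix ι ι ℂ) :
    ∃ l : ℂ, l * star l = 1 ∧ (l • (1 : Matrix ι ι ℂ) - A).det ≠ 0 := by
  have hfin : {z : ℂ | A.charpoly.IsRoot z}.Finite :=
    Polynomial.finite_setOf_isRoot A.charpoly_monic.ne_zero
  have hinf : {z : ℂ | z * star z = 1}.Infinite := by
    have hne : ∀ k : ℕ, ((k : ℂ) - I) ≠ 0 := fun k h => by
      have := congrArg Complex.im h; simp at this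
    have hne' : ∀ k : ℕ, ((k : ℂ) + I) ≠ 0 := fun k h => by
      have := congrArg Complex.im h; simp at this
    refine Set.infinite_of_injective_forall_mem (f := fun k : ℕ => ((k : ℂ) + I) / ((k : ℂ) - I))
      (fun a b h => ?_) (fun k => ?_)
    · have h' := (div_eq_div_iff (hne a) (hne b)).1 h
      have : (2 * I) * ((a : ℂ) - b) = 0 := by linear_combination -h'
      rcases mul_eq_zero.1 this with h1 | h1
      · simp at h1
      · exact_mod_cast sub_eq_zero.1 h1
    · show _ * star _ = (1 : ℂ)
      have h1 := hne k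
      have h2 := hne' k
      simp only [star_div₀, star_add, star_sub, star_natCast, Complex.star_def, conj_I]
      rw [show (k : ℂ) + -I = k - I by ring, show (k : ℂ) - -I = k + I by ring]
      field_simp
  obtain ⟨l, hl, hl'⟩ := hinf.exists_notMem_finite hfin
  refine ⟨l, hl, fun h => hl' ?_⟩
  show A.charpoly.eval l = 0
  rw [Matrix.eval_charpoly, ← h]
  congr 1
  ext i j
  by_cases hij : i = j <;> simp [hij, Matrix.scalar_apply, Matrix.one_apply]

theorem diag_unitary (A : Matrix ι ι ℂ) (hA : Aᴴ * A = 1) :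
    ∃ (U : Matrix ι ι ℂ) (d : ι → ℂ), Uᴴ * U = 1 ∧ A = U * diagonal d * Uᴴ := by
  obtain ⟨l, hl, hdet⟩ := exists_unit_det A
  set N : Matrix ι ι ℂ := l • (1 : Matrix ι ι ℂ) - A with hN
  have hu : IsUnit N.det := isUnit_iff_ne_zero.2 hdet
  have h1 : N * N⁻¹ = 1 := mul_nonsing_inv N hu
  have h2 : N⁻¹ * N = 1 := nonsing_inv_mul N hu
  set H : Matrix ι ι ℂ := I • ((l • (1 : Matrix ι ι ℂ) + A) * N⁻¹) with hH
  have hHN : H * N = I • (l • (1 : Matrix ι ι ℂ) + A) := by
    rw [hH, smul_mul_assoc, Matrix.mul_assoc, h2, Matrix.mul_one]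
  have hl' : star l * l = 1 := by rw [mul_comm, hl]
  have herm : H.IsHermitian := by
    have e1 : Nᴴ * H * N = I • (star l • A - l • Aᴴ) := by
      rw [Matrix.mul_assoc, hHN, hN]
      simp only [conjTranspose_sub, conjTranspose_smul, conjTranspose_one, Matrix.mul_smul,
        Matrix.sub_mul, Matrix.mul_add, smul_mul_assoc, Matrix.one_mul, Matrix.mul_one, hA,
        smul_smul, hl, hl', one_smul, smul_sub]
      module
    have e2 : Nᴴ * Hᴴ * N = Nᴴ * H * N := by
      have : Nᴴ * Hᴴ * N = (Nᴴ * H * N)ᴴ := by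
        simp [conjTranspose_mul, Matrix.mul_assoc]
      rw [this, e1]
      simp only [conjTranspose_smul, conjTranspose_sub, conjTranspose_conjTranspose, star_star,
        Complex.star_def, conj_I, neg_smul, smul_sub]
      simp only [Complex.conj_conj]
      abel
    have h3 : (N⁻¹)ᴴ * Nᴴ = 1 := by rw [← conjTranspose_mul, h1, conjTranspose_one]
    have : (N⁻¹)ᴴ * (Nᴴ * Hᴴ * N) * N⁻¹ = (N⁻¹)ᴴ * (Nᴴ * H * N) * N⁻¹ := by rw [e2]
    simp only [← Matrix.mul_assoc, h3, Matrix.one_mul] at this
    simp only [Matrix.mul_assoc, h1, Matrix.mul_one] at this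
    exact this
  have key : A * (H + I • 1) = l • (H - I • 1) := by
    have e1 : (H + I • 1) * N = (2 * I * l) • 1 := by
      rw [Matrix.add_mul, hHN, hN]
      simp only [smul_mul_assoc, Matrix.one_mul, smul_add, smul_sub, smul_smul]
      module
    have e2 : (H - I • 1) * N = (2 * I) • A := by
      rw [Matrix.sub_mul, hHN, hN]
      simp only [smul_mul_assoc, Matrix.one_mul, smul_add, smul_sub, smul_smul]
      module
    have : A * (H + I • 1) * N = l • (H - I • 1) * N := by
      rw [Matrix.mul_assoc, e1, smul_mul_assoc, e2]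
      simp only [Matrix.mul_smul, Matrix.mul_one, smul_smul]
      congr 1; ring
    have h4 : A * (H + I • 1) * N * N⁻¹ = l • (H - I • 1) * N * N⁻¹ := by rw [this]
    simpa only [Matrix.mul_assoc, h1, Matrix.mul_one] using h4
  set U : Matrix ι ι ℂ := (herm.eigenvectorUnitary : Matrix ι ι ℂ) with hU
  have hU1 : Uᴴ * U = 1 := by
    have := herm.eigenvectorUnitary.2.1
    simpa [star_eq_conjTranspose] using this
  have hU2 : U * Uᴴ = 1 := mul_eq_one_comm.1 hU1
  set D : ι → ℂ := fun i => (herm.eigenvalues i : ℂ) with hD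
  have hsp : H = U * diagonal D * Uᴴ := by
    have := herm.spectral_theorem
    simpa [Unitary.conjStarAlgAut_apply, star_eq_conjTranspose, hU, hD, Function.comp_def]
      using this
  have hsp' : Uᴴ * H * U = diagonal D := by
    rw [hsp]
    simp only [← Matrix.mul_assoc, hU1, Matrix.one_mul]
    rw [Matrix.mul_assoc, hU1, Matrix.mul_one]
  set M := Uᴴ * A * U with hM
  have key2 : M * (diagonal D + I • 1) = l • (diagonal D - I • 1) := by
    have a1 : diagonal D + I • 1 = Uᴴ * (H + I • 1) * U := by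
      rw [Matrix.mul_add, Matrix.add_mul, hsp']; simp [hU1]
    have a2 : diagonal D - I • 1 = Uᴴ * (H - I • 1) * U := by
      rw [Matrix.mul_sub, Matrix.sub_mul, hsp']; simp [hU1]
    rw [a1, a2, hM]
    calc Uᴴ * A * U * (Uᴴ * (H + I • 1) * U)
        = Uᴴ * (A * (U * Uᴴ) * (H + I • 1)) * U := by simp only [Matrix.mul_assoc]
      _ = _ := by rw [hU2, Matrix.mul_one, key]; simp
  have hne : ∀ j, D j + I ≠ 0 := fun j h => by
    have := congrArg Complex.im h; simp [hD] at this
  have hMd : M = diagonal (fun i => M i i) := by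
    ext i j
    by_cases hij : i = j
    · subst hij; simp
    · have := congrFun (congrFun key2 i) j
      have e : diagonal D + I • (1 : Matrix ι ι ℂ) = diagonal (fun j => D j + I) := by
        ext a b; by_cases hab : a = b <;> simp [hab, Matrix.one_apply]
      rw [e, mul_diagonal] at this
      simp [hij, Matrix.one_apply] at this
      simp [hij, this.resolve_right (hne j)]
  refine ⟨U, fun i => M i i, hU1, ?_⟩
  rw [← hMd, hM]
  simp only [← Matrix.mul_assoc, hU2, Matrix.one_mul]
  rw [Matrix.mul_assoc, hU2, Matrix.mul_one]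

end Pool.Agent.H.MP_ca7eb7_al
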