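import Pool.Agent.H.MP_ca7eb7_al.A

set_option autoImplicit false

namespace Pool.Agent.H.MP_ca7eb7_al

open Matrix Complex

variable {ι κ : Type} [Fintype ι] [DecidableEq ι] [Fintype κ] [DecidableEq κ]

def Inv (J : Matrix ι ι ℂ) : Prop := Jᴴ * J = 1 ∧ J.det = 1 ∧ J * J = 1

def Two (B : Matrix ι ι ℂ) : Prop := ∃ J K, Inv J ∧ Inv K ∧ B = J * K

def Four (A : Matrix ι ι ℂ) : Prop := ∃ B C, Two B ∧ Two C ∧ A = B * C

theorem conj_mul {U : Matrix ι ι ℂ} (hU : Uᴴ * U = 1) (X Y : Matrix ι ι ℂ) :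
    U * X * Uᴴ * (U * Y * Uᴴ) = U * (X * Y) * Uᴴ := by
  calc U * X * Uᴴ * (U * Y * Uᴴ) = U * X * (Uᴴ * U) * Y * Uᴴ := by simp only [Matrix.mul_assoc]
    _ = _ := by rw [hU]; simp only [Matrix.mul_assoc, Matrix.one_mul]

theorem Inv.conj {J U : Matrix ι ι ℂ} (h : Inv J) (hU : Uᴴ * U = 1) : Inv (U * J * Uᴴ) := by
  have hU2 : U * Uᴴ = 1 := mul_eq_one_comm.1 hU
  refine ⟨?_, ?_, ?_⟩
  · have : (U * J * Uᴴ)ᴴ = U * Jᴴ * Uᴴ := by simp [conjTranspose_mul, Matrix.mul_assoc]
    rw [this, conj_mul hU, h.1, Matrix.mul_one, hU2]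
  · rw [det_mul, det_mul, h.2.1, mul_one, ← det_mul, hU2, det_one]
  · rw [conj_mul hU, h.2.2, Matrix.mul_one, hU2]

theorem Two.conj {B U : Matrix ι ι ℂ} (h : Two B) (hU : Uᴴ * U = 1) : Two (U * B * Uᴴ) := by
  obtain ⟨J, K, hJ, hK, rfl⟩ := h
  exact ⟨_, _, hJ.conj hU, hK.conj hU, (conj_mul hU _ _).symm⟩

theorem Four.conj {B U : Matrix ι ι ℂ} (h : Four B) (hU : Uᴴ * U = 1) : Four (U * B * Uᴴ) := by
  obtain ⟨J, K, hJ, hK, rfl⟩ := h
  exact ⟨_, _, hJ.conj hU, hK.conj hU, (conj_mul hU _ _).symm⟩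

theorem Inv.sub {J : Matrix ι ι ℂ} (h : Inv J) (e : κ ≃ ι) : Inv (J.submatrix e e) := by
  refine ⟨?_, ?_, ?_⟩
  · rw [conjTranspose_submatrix, submatrix_mul_equiv, h.1, submatrix_one_equiv]
  · rw [det_submatrix_equiv_self, h.2.1]
  · rw [submatrix_mul_equiv, h.2.2, submatrix_one_equiv]

theorem Two.sub {B : Matrix ι ι ℂ} (h : Two B) (e : κ ≃ ι) : Two (B.submatrix e e) := by
  obtain ⟨J, K, hJ, hK, rfl⟩ := h
  exact ⟨_, _, hJ.sub e, hK.sub e, (submatrix_mul_equiv _ _ _ _ _).symm⟩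

theorem Four.sub {B : Matrix ι ι ℂ} (h : Four B) (e : κ ≃ ι) : Four (B.submatrix e e) := by
  obtain ⟨J, K, hJ, hK, rfl⟩ := h
  exact ⟨_, _, hJ.sub e, hK.sub e, (submatrix_mul_equiv _ _ _ _ _).symm⟩

theorem exists_equiv (a : ι → ℂ) (a' : κ → ℂ)
    (h : Finset.univ.val.map a = Finset.univ.val.map a') : ∃ e : ι ≃ κ, ∀ i, a' (e i) = a i := by
  classical
  have : ∀ z, Fintype.card {i // a i = z} = Fintype.card {k // a' k = z} := fun z => by
    have := congrArg (Multiset.count z) h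
    rw [Multiset.count_map, Multiset.count_map] at this
    rw [Fintype.card_subtype, Fintype.card_subtype]
    simp only [eq_comm (a := z)] at this
    exact this
  exact ⟨Equiv.ofFiberEquiv fun z => Fintype.equivOfCardEq (this z), fun i =>
    Equiv.ofFiberEquiv_map _ i⟩

theorem diag_sub {a : ι → ℂ} {a' : κ → ℂ} (e : ι ≃ κ) (h : ∀ i, a' (e i) = a i) :
    diagonal a = (diagonal a').submatrix e e := by
  rw [submatrix_diagonal_equiv]
  congr 1; ext i; exact (h i).symm

theorem Two.of_map {a : ι → ℂ} {a' : κ → ℂ} (h2 : Two (diagonal a'))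
    (h : Finset.univ.val.map a = Finset.univ.val.map a') : Two (diagonal a) := by
  obtain ⟨e, he⟩ := exists_equiv a a' h
  rw [diag_sub e he]; exact h2.sub e

theorem Four.of_map {a : ι → ℂ} {a' : κ → ℂ} (h2 : Four (diagonal a'))
    (h : Finset.univ.val.map a = Finset.univ.val.map a') : Four (diagonal a) := by
  obtain ⟨e, he⟩ := exists_equiv a a' h
  rw [diag_sub e he]; exact h2.sub e

def mon (σ : Equiv.Perm ι) (c : ι → ℂ) : Matrix ι ι ℂ :=
  of fun i j => if j = σ i then c i else 0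

theorem mon_mul (σ : Equiv.Perm ι) (hσ : ∀ i, σ (σ i) = i) (c d : ι → ℂ) :
    mon σ c * mon σ d = diagonal fun i => c i * d (σ i) := by
  ext i j
  simp only [mon, mul_apply, of_apply, ite_mul, zero_mul, Finset.sum_ite_eq', Finset.mem_univ,
    if_true, hσ, diagonal_apply]
  by_cases h : i = j
  · simp [h]
  · simp [h, Ne.symm h]

theorem mon_det (σ : Equiv.Perm ι) (c : ι → ℂ) :
    (mon σ c).det = (∏ i, c i) * (Equiv.Perm.sign σ : ℂ) := by
  have : mon σ c = diagonal c * σ.permMatrix ℂ := by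
    ext i j
    simp [mon, diagonal_mul, Equiv.Perm.permMatrix, PEquiv.toMatrix_apply, eq_comm]
  rw [this, det_mul, det_diagonal, det_permutation]

theorem mon_inv (σ : Equiv.Perm ι) (hσ : ∀ i, σ (σ i) = i) (c : ι → ℂ)
    (h1 : ∀ i, star (c (σ i)) = c i) (h2 : ∀ i, c i * c (σ i) = 1)
    (h3 : (∏ i, c i) * (Equiv.Perm.sign σ : ℂ) = 1) : Inv (mon σ c) := by
  have e : mon σ c * mon σ c = 1 := by
    rw [mon_mul σ hσ]; simp [h2]
  have hH : (mon σ c)ᴴ = mon σ c := by
    ext i j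
    simp only [mon, conjTranspose_apply, of_apply]
    by_cases h : j = σ i
    · subst h; simp [hσ, ← h1 i]
    · have : ¬ i = σ j := fun h' => h (by rw [h', hσ])
      simp [h, this]
  exact ⟨by rw [hH, e], by rw [mon_det, h3], e⟩

theorem two_perm (b : ι → ℂ) (hb : ∀ i, b i * star (b i) = 1) (σ : Equiv.Perm ι)
    (hσ : ∀ i, σ (σ i) = i) (hbσ : ∀ i, b (σ i) = star (b i)) (hp : ∏ i, b i = 1)
    (h : (∃ i, σ i = i) ∨ 4 ∣ Fintype.card ι) : Two (diagonal b) := by
  obtain ⟨s, s1, s2, s3, s4⟩ : ∃ s : ι → ℂ, (∀ i, s (σ i) = s i) ∧ (∀ i, star (s i) = s i) ∧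
      (∀ i, s i * s i = 1) ∧ (∏ i, s i) * (Equiv.Perm.sign σ : ℂ) = 1 := by
    rcases Int.units_eq_one_or (Equiv.Perm.sign σ) with hs | hs
    · exact ⟨fun _ => 1, by simp, by simp, by simp, by simp [hs]⟩
    · have : ∃ i, σ i = i := by
        by_contra hne
        have h4 := h.resolve_left hne
        have h2 : σ ^ 2 = 1 := by ext i; simp [pow_two, hσ]
        have := Equiv.Perm.sign_of_pow_two_eq_one h2
        have h0 : Fintype.card (Function.fixedPoints σ) = 0 := by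
          rw [Fintype.card_eq_zero_iff]
          exact ⟨fun x => hne ⟨x.1, x.2⟩⟩
        obtain ⟨m, hm⟩ := h4
        rw [h0, hm, hs, show (4 * m - 0) / 2 = 2 * m by omega, pow_mul] at this
        simp at this
      obtain ⟨i0, hi0⟩ := this
      refine ⟨fun i => if i = i0 then -1 else 1, fun i => ?_, fun i => ?_, fun i => ?_, ?_⟩
      · have : σ i = i0 ↔ i = i0 := ⟨fun h => by rw [← hσ i, h, hi0], fun h => by rw [h, hi0]⟩
        simp [this]
      · by_cases h : i = i0 <;> simp [h]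
      · by_cases h : i = i0 <;> simp [h]
      · simp [hs, Finset.prod_ite_eq']
  refine ⟨mon σ s, mon σ fun i => s i * b (σ i), mon_inv σ hσ s (fun i => by rw [s1, s2])
    (fun i => by rw [s1, s3]) s4, mon_inv σ hσ _ (fun i => ?_) (fun i => ?_) ?_, ?_⟩
  · simp only [hσ, s1, star_mul', s2, hbσ]
  · simp only [hσ, s1, hbσ]
    linear_combination (star (b i) * b i) * s3 i + hb i
  · rw [Finset.prod_mul_distrib, Equiv.prod_comp σ b, hp, mul_one, s4]
  · rw [mon_mul σ hσ]
    congr 1; ext i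
    simp only [hσ, s1]
    linear_combination -(b i) * s3 i

theorem exists_fin (M : Multiset ℂ) : ∃ (n : ℕ) (f : Fin n → ℂ), Finset.univ.val.map f = M := by
  induction M using Quotient.inductionOn with
  | h l => exact ⟨l.length, l.get, by rw [Fin.univ_val_map]; simp⟩

theorem map_elim (f : ι → ℂ) (g : κ → ℂ) :
    Finset.univ.val.map (Sum.elim f g) = Finset.univ.val.map f + Finset.univ.val.map g := by
  rw [← Finset.univ_disjSum_univ, Finset.val_disjSum, Multiset.disjSum, Multiset.map_add,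
    Multiset.map_map, Multiset.map_map]
  rfl

theorem two_of_map (b : ι → ℂ) (F K : Multiset ℂ)
    (h : Finset.univ.val.map b = F + (K + K.map star)) (hF : ∀ x ∈ F, star x = x ∧ x * x = 1)
    (hK : ∀ x ∈ K, x * star x = 1) (hp : F.prod = 1) (h4 : F ≠ 0 ∨ 4 ∣ Fintype.card ι) :
    Two (diagonal b) := by
  obtain ⟨m, f, rfl⟩ := exists_fin F
  obtain ⟨n, k, rfl⟩ := exists_fin K
  have hF' : ∀ i, star (f i) = f i ∧ f i * f i = 1 := fun i => hF _ (by simp)
  have hK' : ∀ i, k i * star (k i) = 1 := fun i => hK _ (by simp)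
  have hm : Finset.univ.val.map b =
      Finset.univ.val.map (Sum.elim f (Sum.elim k fun i => star (k i))) := by
    rw [h, map_elim, map_elim, Multiset.map_map]; rfl
  have hc : Fintype.card ι = Fintype.card (Fin m ⊕ (Fin n ⊕ Fin n)) := by
    have := congrArg Multiset.card hm
    simpa using this
  refine Two.of_map ?_ hm
  refine two_perm _ ?_ (Equiv.sumCongr (Equiv.refl _) (Equiv.sumComm _ _)) ?_ ?_ ?_ ?_
  · rintro (i | i | i)
    · simp [(hF' i).1, (hF' i).2]
    · exact hK' i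
    · simpa [mul_comm] using hK' i
  · rintro (i | i | i) <;> rfl
  · rintro (i | i | i)
    · exact (hF' i).1.symm
    · rfl
    · simp
  · rw [Fintype.prod_sum_type, Fintype.prod_sum_type]
    simp only [Sum.elim_inl, Sum.elim_inr]
    rw [← Finset.prod_mul_distrib]
    simp only [hK', Finset.prod_const_one, mul_one]
    exact hp
  · rcases h4 with h4 | h4
    · left
      rcases m with _ | m
      · simp at h4
      · exact ⟨Sum.inl 0, rfl⟩
    · right; rwa [← hc]

end Pool.Agent.H.MP_ca7eb7_al
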