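import Pool.Agent.H.MP_ca7eb7_al.B

set_option autoImplicit false

namespace Pool.Agent.H.MP_ca7eb7_al

open Matrix Complex

variable {ι κ : Type} [Fintype ι] [DecidableEq ι] [Fintype κ] [DecidableEq κ]

theorem unit_prod (M : Multiset ℂ) (h : ∀ x ∈ M, x * star x = 1) : M.prod * star M.prod = 1 := by
  induction M using Multiset.induction_on with
  | empty => simp
  | cons a M ih =>
    have h1 := h a (by simp)
    have h2 := ih fun x hx => h x (by simp [hx])
    rw [Multiset.prod_cons, star_mul']
    linear_combination (M.prod * star M.prod) * h1 + h2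

theorem path (ε : ℂ) (h1 : star ε = ε) (h2 : ε * ε = 1) (M : Multiset ℂ)
    (hM : ∀ x ∈ M, x * star x = 1) :
    ∃ (n : ℕ) (b c : Fin n → ℂ) (K K' : Multiset ℂ),
      Finset.univ.val.map (fun i => b i * c i) = M ∧ (∀ x ∈ K, x * star x = 1) ∧
      (∀ x ∈ K', x * star x = 1) ∧
      (Even M.card → Finset.univ.val.map b + {ε * star M.prod} = {ε} + (K + K.map star) ∧
        Finset.univ.val.map c = K' + K'.map star) ∧
      (¬ Even M.card → Finset.univ.val.map b = {ε} + (K + K.map star) ∧
        Finset.univ.val.map c + {ε * star M.prod} = K' + K'.map star) := by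
  induction M using Multiset.induction_on with
  | empty => exact ⟨0, ![], ![], 0, 0, by simp, by simp, by simp, fun _ => by simp, by simp⟩
  | cons a M ih =>
    have ha := hM a (by simp)
    have hM' : ∀ x ∈ M, x * star x = 1 := fun x hx => hM x (by simp [hx])
    have hP := unit_prod M hM'
    obtain ⟨n, b, c, K, K', e1, e2, e3, e4, e5⟩ := ih hM'
    have cons : ∀ (x : ℂ) (f : Fin n → ℂ),
        Finset.univ.val.map (Fin.cons x f : Fin (n + 1) → ℂ) = {x} + Finset.univ.val.map f := by
      intro x f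
      rw [Fin.univ_val_map, Fin.univ_val_map, List.ofFn_cons]; rfl
    have hu : ε * (a * M.prod) * star (ε * (a * M.prod)) = 1 := by
      rw [star_mul', star_mul', h1]
      linear_combination (a * star a * (M.prod * star M.prod)) * h2 + (M.prod * star M.prod) * ha
        + hP
    have hs : star (ε * (a * M.prod)) = ε * star (a * M.prod) := by rw [star_mul', h1]
    have hm : ε * star M.prod * (ε * (a * M.prod)) = a := by
      linear_combination (a * (M.prod * star M.prod)) * h2 + a * hP
    by_cases hE : Even M.card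
    · obtain ⟨f1, f2⟩ := e4 hE
      refine ⟨n + 1, Fin.cons (ε * star M.prod) b, Fin.cons (ε * (a * M.prod)) c, K,
        {ε * (a * M.prod)} + K', ?_, e2, ?_, fun h => ?_, fun _ => ⟨?_, ?_⟩⟩
      · have : (fun i => (Fin.cons (ε * star M.prod) b : Fin (n + 1) → ℂ) i *
            (Fin.cons (ε * (a * M.prod)) c : Fin (n + 1) → ℂ) i) =
            (Fin.cons a (fun i => b i * c i) : Fin (n + 1) → ℂ) := by
          ext i
          refine Fin.cases ?_ (fun j => ?_) i
          · simpa using hm
          · simp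
        rw [this, cons, e1]; rfl
      · intro x hx
        rcases Multiset.mem_add.1 hx with hx | hx
        · rw [Multiset.mem_singleton.1 hx]; exact hu
        · exact e3 x hx
      · exfalso
        rw [Multiset.card_cons, Nat.even_add_one] at h
        exact h hE
      · rw [cons, add_comm, f1]
      · rw [cons, f2, Multiset.prod_cons, Multiset.map_add, Multiset.map_singleton, hs]
        abel
    · obtain ⟨f1, f2⟩ := e5 hE
      refine ⟨n + 1, Fin.cons (ε * (a * M.prod)) b, Fin.cons (ε * star M.prod) c,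
        {ε * (a * M.prod)} + K, K', ?_, ?_, e3, fun _ => ⟨?_, ?_⟩, fun h => ?_⟩
      · have : (fun i => (Fin.cons (ε * (a * M.prod)) b : Fin (n + 1) → ℂ) i *
            (Fin.cons (ε * star M.prod) c : Fin (n + 1) → ℂ) i) =
            (Fin.cons a (fun i => b i * c i) : Fin (n + 1) → ℂ) := by
          ext i
          refine Fin.cases ?_ (fun j => ?_) i
          · simpa [mul_comm] using hm
          · simp
        rw [this, cons, e1]; rfl
      · intro x hx
        rcases Multiset.mem_add.1 hx with hx | hx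
        · rw [Multiset.mem_singleton.1 hx]; exact hu
        · exact e2 x hx
      · rw [cons, f1, Multiset.prod_cons, Multiset.map_add, Multiset.map_singleton, hs]
        abel
      · rw [cons, add_comm, f2]
      · exfalso
        rw [Multiset.card_cons, Nat.even_add_one] at h
        exact h hE

theorem two_by_two (a β γ : Fin 2 → ℂ) (hβ : ∀ i, β i * star (β i) = 1)
    (hγ : ∀ i, γ i * star (γ i) = 1) (t : ℝ) (t0 : 0 ≤ t) (t1 : t ≤ 1)
    (hd : a 0 * a 1 = β 0 * β 1 * (γ 0 * γ 1))
    (ht : a 0 + a 1 = t * (β 0 * γ 0 + β 1 * γ 1) + (1 - t) * (β 0 * γ 1 + β 1 * γ 0)) :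
    ∃ V W : Matrix (Fin 2) (Fin 2) ℂ, Vᴴ * V = 1 ∧ Wᴴ * W = 1 ∧
      diagonal a = V * diagonal β * Vᴴ * (W * diagonal γ * Wᴴ) := by
  obtain ⟨c, hc⟩ : ∃ c : ℝ, (c : ℂ) * c = t :=
    ⟨√t, by exact_mod_cast Real.mul_self_sqrt t0⟩
  obtain ⟨s, hs⟩ : ∃ s : ℝ, (s : ℂ) * s = 1 - t :=
    ⟨√(1 - t), by exact_mod_cast Real.mul_self_sqrt (by linarith)⟩
  set R : Matrix (Fin 2) (Fin 2) ℂ := !![(c : ℂ), -s; s, c] with hR
  have hRH : Rᴴ = !![(c : ℂ), s; -s, c] := by
    ext i j; fin_cases i <;> fin_cases j <;> simp [hR]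
  have hRu : Rᴴ * R = 1 := by
    rw [hRH, hR]
    ext i j; fin_cases i <;> fin_cases j <;> simp [Matrix.mul_apply, Fin.sum_univ_two]
    · linear_combination hc + hs
    · ring
    · ring
    · linear_combination hc + hs
  have hR2 : R * Rᴴ = 1 := mul_eq_one_comm.1 hRu
  have du : ∀ x : Fin 2 → ℂ, (∀ i, x i * star (x i) = 1) → (diagonal x)ᴴ * diagonal x = 1 := by
    intro x hx
    rw [diagonal_conjTranspose, diagonal_mul_diagonal, ← diagonal_one]
    congr 1; ext i; rw [mul_comm]; exact hx i
  set M := diagonal β * (R * diagonal γ * Rᴴ) with hM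
  have hMu : Mᴴ * M = 1 := by
    have e : (R * diagonal γ * Rᴴ)ᴴ = R * (diagonal γ)ᴴ * Rᴴ := by
      simp [conjTranspose_mul, Matrix.mul_assoc]
    rw [hM, conjTranspose_mul, Matrix.mul_assoc, ← Matrix.mul_assoc (diagonal β)ᴴ, du β hβ,
      Matrix.one_mul, e, conj_mul hRu, du γ hγ, Matrix.mul_one, hR2]
  have hdet : M.det = a 0 * a 1 := by
    rw [hM, det_mul, det_mul, det_mul, mul_right_comm R.det, ← det_mul, hR2, hd]
    simp [Fin.prod_univ_two]
  have htr : M.trace = a 0 + a 1 := by
    rw [hM, hRH, hR, ht]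
    simp [Matrix.trace, Fin.sum_univ_two, Matrix.mul_apply, diagonal_apply, vecMul, dotProduct]
    linear_combination (β 0 * γ 0 + β 1 * γ 1) * hc + (β 0 * γ 1 + β 1 * γ 0) * hs
  obtain ⟨U, d, hU, hUd⟩ := diag_unitary M hMu
  have hU2 : U * Uᴴ = 1 := mul_eq_one_comm.1 hU
  have e1 : d 0 * d 1 = a 0 * a 1 := by
    rw [← hdet, hUd, det_mul, det_mul, mul_right_comm, ← det_mul, hU2]
    simp [Fin.prod_univ_two]
  have e2 : d 0 + d 1 = a 0 + a 1 := by
    rw [← htr, hUd, trace_mul_cycle, hU, Matrix.one_mul]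
    simp [Fin.sum_univ_two]
  obtain ⟨P, hP, hPa⟩ : ∃ P : Matrix (Fin 2) (Fin 2) ℂ, Pᴴ * P = 1 ∧
      diagonal a = P * diagonal d * Pᴴ := by
    have : (d 0 - a 0) * (d 0 - a 1) = 0 := by linear_combination d 0 * e2 - e1
    rcases mul_eq_zero.1 this with h | h
    · refine ⟨1, by simp, ?_⟩
      have h0 : d 0 = a 0 := sub_eq_zero.1 h
      have h1 : d 1 = a 1 := by linear_combination e2 - h0
      ext i j; fin_cases i <;> fin_cases j <;> simp [h0, h1]
    · have h0 : d 0 = a 1 := sub_eq_zero.1 h
      have h1 : d 1 = a 0 := by linear_combination e2 - h0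
      refine ⟨!![0, 1; 1, 0], ?_, ?_⟩
      · ext i j; fin_cases i <;> fin_cases j <;> simp [Matrix.mul_apply, Fin.sum_univ_two]
      · ext i j
        fin_cases i <;> fin_cases j <;>
          simp [Matrix.mul_apply, Fin.sum_univ_two, diagonal_apply, h0, h1, vecMul, dotProduct]
  have hd' : diagonal d = Uᴴ * M * U := by
    rw [hUd]
    simp only [← Matrix.mul_assoc, hU, Matrix.one_mul]
    rw [Matrix.mul_assoc, hU, Matrix.mul_one]
  have hV : (P * Uᴴ)ᴴ * (P * Uᴴ) = 1 := by
    rw [conjTranspose_mul, conjTranspose_conjTranspose, Matrix.mul_assoc, ← Matrix.mul_assoc Pᴴ,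
      hP, Matrix.one_mul, hU2]
  refine ⟨P * Uᴴ, P * Uᴴ * R, hV, ?_, ?_⟩
  · rw [conjTranspose_mul, Matrix.mul_assoc, ← Matrix.mul_assoc (P * Uᴴ)ᴴ, hV, Matrix.one_mul, hRu]
  · have : P * Uᴴ * R * diagonal γ * (P * Uᴴ * R)ᴴ =
        P * Uᴴ * (R * diagonal γ * Rᴴ) * (P * Uᴴ)ᴴ := by
      simp only [conjTranspose_mul, Matrix.mul_assoc]
    rw [this, conj_mul hV, ← hM, hPa, hd']
    simp only [conjTranspose_mul, conjTranspose_conjTranspose, Matrix.mul_assoc]

theorem swap_step {α : Type} [DecidableEq α] (g : Finset α → ℝ) (k : ℕ) :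
    ∀ A B C : Finset α, A.card = k + 1 → B.card = k + 1 → Disjoint A B → Disjoint C A →
      Disjoint C B → g (C ∪ A) * g (C ∪ B) ≤ 0 →
      ∃ (E : Finset α) (i j : α), i ≠ j ∧ i ∉ E ∧ j ∉ E ∧ E.card = C.card + k ∧
        g (insert i E) * g (insert j E) ≤ 0 := by
  induction k with
  | zero =>
    intro A B C hA hB hAB hCA hCB h
    obtain ⟨i, rfl⟩ := Finset.card_eq_one.1 hA
    obtain ⟨j, rfl⟩ := Finset.card_eq_one.1 hB
    refine ⟨C, i, j, by simpa using hAB, by simpa using hCA, by simpa using hCB, rfl, ?_⟩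
    simpa [Finset.union_comm, ← Finset.insert_eq] using h
  | succ k ih =>
    intro A B C hA hB hAB hCA hCB h
    obtain ⟨i, hi⟩ : A.Nonempty := Finset.card_pos.1 (by omega)
    obtain ⟨j, hj⟩ : B.Nonempty := Finset.card_pos.1 (by omega)
    have hiB : i ∉ B := Finset.disjoint_left.1 hAB hi
    have hjA : j ∉ A := Finset.disjoint_right.1 hAB hj
    have hiC : i ∉ C := Finset.disjoint_right.1 hCA hi
    have hjC : j ∉ C := Finset.disjoint_right.1 hCB hj
    have e1 : insert i (C ∪ A.erase i) = C ∪ A := by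
      ext x; simp only [Finset.mem_insert, Finset.mem_union, Finset.mem_erase]
      constructor
      · rintro (rfl | h | h) <;> simp_all
      · rintro (h | h)
        · simp [h]
        · by_cases hx : x = i <;> simp [hx, h]
    by_cases hs : g (C ∪ A) * g (insert j (C ∪ A.erase i)) ≤ 0
    · refine ⟨C ∪ A.erase i, i, j, fun h => hiB (h ▸ hj), by simp [hiC], by simp [hjC, hjA], ?_,
        by rwa [e1]⟩
      rw [Finset.card_union_of_disjoint (hCA.mono_right (Finset.erase_subset _ _)),
        Finset.card_erase_of_mem hi, hA]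
      omega
    · push Not at hs
      obtain ⟨E, i', j', r1, r2, r3, r4, r5⟩ := ih (A.erase i) (B.erase j) (insert j C)
        (by rw [Finset.card_erase_of_mem hi, hA]; rfl) (by rw [Finset.card_erase_of_mem hj, hB]; rfl)
        (hAB.mono (Finset.erase_subset _ _) (Finset.erase_subset _ _))
        (by
          rw [Finset.disjoint_insert_left]
          exact ⟨by simp [hjA], hCA.mono_right (Finset.erase_subset _ _)⟩)
        (by
          rw [Finset.disjoint_insert_left]
          exact ⟨by simp, hCB.mono_right (Finset.erase_subset _ _)⟩)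
        (by
          have e2 : insert j C ∪ B.erase j = C ∪ B := by
            ext x; simp only [Finset.mem_insert, Finset.mem_union, Finset.mem_erase]
            constructor
            · rintro ((rfl | h) | h) <;> simp_all
            · rintro (h | h)
              · simp [h]
              · by_cases hx : x = j <;> simp [hx, h]
          rw [e2, Finset.insert_union]
          by_contra hc
          push Not at hc
          nlinarith [mul_pos hs hc, sq_nonneg (g (insert j (C ∪ A.erase i)))])
      refine ⟨E, i', j', r1, r2, r3, ?_, r5⟩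
      rw [r4, Finset.card_insert_of_notMem hjC]; omega

end Pool.Agent.H.MP_ca7eb7_al
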