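import Pool.Agent.H.MP_ca7eb7_al.C

set_option autoImplicit false

namespace Pool.Agent.H.MP_ca7eb7_al

open Matrix Complex

variable {ι κ : Type} [Fintype ι] [DecidableEq ι] [Fintype κ] [DecidableEq κ]

theorem four_mul (b c : ι → ℂ) (hb : Two (diagonal b)) (hc : Two (diagonal c)) :
    Four (diagonal fun i => b i * c i) := ⟨_, _, hb, hc, (diagonal_mul_diagonal b c).symm⟩

theorem four_block (a β γ : Fin 2 → ℂ) (b c : κ → ℂ) (V W : Matrix (Fin 2) (Fin 2) ℂ)
    (hV : Vᴴ * V = 1) (hW : Wᴴ * W = 1)
    (h : diagonal a = V * diagonal β * Vᴴ * (W * diagonal γ * Wᴴ))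
    (hb : Two (diagonal (Sum.elim β b))) (hc : Two (diagonal (Sum.elim γ c))) :
    Four (diagonal (Sum.elim a fun i => b i * c i)) := by
  have u : ∀ X : Matrix (Fin 2) (Fin 2) ℂ, Xᴴ * X = 1 →
      (fromBlocks X 0 0 (1 : Matrix κ κ ℂ))ᴴ * fromBlocks X 0 0 1 = 1 := by
    intro X hX
    simp [fromBlocks_conjTranspose, fromBlocks_multiply, hX]
  refine ⟨_, _, hb.conj (u V hV), hc.conj (u W hW), ?_⟩
  simp only [← fromBlocks_diagonal, fromBlocks_conjTranspose, fromBlocks_multiply, h]
  simp

theorem real_between (x y z : ℝ) (h : x ^ 2 ≤ z ^ 2) :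
    ∃ e t : ℝ, e * e = 1 ∧ 0 ≤ t ∧ t ≤ 1 ∧ x = t * y + (1 - t) * (e * z) := by
  have key : ∀ u v : ℝ, u ≤ x → x ≤ v → ∃ t : ℝ, 0 ≤ t ∧ t ≤ 1 ∧ x = t * v + (1 - t) * u := by
    intro u v hu hv
    rcases eq_or_lt_of_le (hu.trans hv) with h | h
    · exact ⟨0, le_rfl, zero_le_one, by linarith⟩
    · have : 0 < v - u := by linarith
      refine ⟨(x - u) / (v - u), div_nonneg (by linarith) this.le,
        (div_le_one this).2 (by linarith), by field_simp; ring⟩
  have habs := abs_le.1 ((le_abs_self _).trans (le_of_eq (abs_abs x)) |>.trans (sq_le_sq.1 h))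
  obtain ⟨e, he, hez⟩ : ∃ e : ℝ, e * e = 1 ∧ e * z = |z| := by
    rcases le_total 0 z with h | h
    · exact ⟨1, by simp, by simp [abs_of_nonneg h]⟩
    · exact ⟨-1, by simp, by simp [abs_of_nonpos h]⟩
  rcases le_total x y with hxy | hxy
  · obtain ⟨t, t0, t1, ht⟩ := key (-|z|) y habs.1 hxy
    exact ⟨-e, t, by linarith, t0, t1, by rw [ht, ← hez]; ring⟩
  · obtain ⟨t, t0, t1, ht⟩ := key y |z| hxy habs.2
    exact ⟨e, 1 - t, he, by linarith, by linarith, by rw [hez]; linarith⟩

theorem sum_real (s u v : ℂ) (hs : s * star s = 1) (hu : u * star u = 1) (h : u * v = s * s) :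
    ∃ r : ℝ, u + v = s * r := by
  refine ⟨2 * (u * star s).re, ?_⟩
  have hv : v = s * s * star u := by linear_combination star u * h - v * hu
  have : ((2 * (u * star s).re : ℝ) : ℂ) = u * star s + star (u * star s) := by
    rw [Complex.star_def, Complex.add_conj]
  rw [this, hv, star_mul', star_star]
  linear_combination (-u) * hs

theorem unit_iff {z : ℂ} (h : z * star z = 1) : z.re ^ 2 + z.im ^ 2 = 1 := by
  have := congrArg Complex.re h
  simp at this
  linarith

theorem choose_t (a0 a1 p1 p2 p3 : ℂ) (h0 : a0 * star a0 = 1) (h1 : a1 * star a1 = 1)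
    (q1 : p1 * star p1 = 1) (q2 : p2 * star p2 = 1) (q3 : p3 * star p3 = 1)
    (hp : a0 * a1 * (p1 * p2 * p3) = 1) (him : (a0 * p1).im * (a1 * p1).im ≤ 0) :
    ∃ e t : ℝ, e * e = 1 ∧ 0 ≤ t ∧ t ≤ 1 ∧ a0 + a1 =
      t * (star p1 * star p3 + star p2) + (1 - t) * (e * (star p1 + star p2 * star p3)) := by
  obtain ⟨s, hs⟩ : ∃ s : ℂ, s * s = a0 * a1 := by
    obtain ⟨s, hs⟩ := IsAlgClosed.exists_pow_nat_eq (a0 * a1) (n := 2) (by norm_num)
    exact ⟨s, by rw [← hs]; ring⟩
  have hsu : s * star s = 1 := by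
    have e : (s * star s) ^ 2 = 1 := by
      have := congrArg star hs
      rw [star_mul', star_mul'] at this
      calc (s * star s) ^ 2 = (s * s) * (star s * star s) := by ring
        _ = (a0 * star a0) * (a1 * star a1) := by rw [hs, this]; ring
        _ = 1 := by rw [h0, h1, one_mul]
    rw [Complex.star_def, Complex.mul_conj] at e ⊢
    have e' : normSq s ^ 2 = 1 := by exact_mod_cast e
    have := normSq_nonneg s
    have : normSq s = 1 := by nlinarith
    exact_mod_cast this
  have hD : star p1 * star p2 * star p3 = s * s := by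
    rw [hs]
    linear_combination (star p1 * star p2 * star p3) * (-hp) +
      a0 * a1 * (p2 * star p2 * (p3 * star p3)) * q1 + a0 * a1 * (p3 * star p3) * q2 + a0 * a1 * q3
  obtain ⟨x, hx⟩ := sum_real s a0 a1 hsu h0 hs.symm
  obtain ⟨y, hy⟩ := sum_real s (star p2) (star p1 * star p3) hsu (by rw [star_star, mul_comm, q2])
    (by rw [← hD]; ring)
  obtain ⟨z, hz⟩ := sum_real s (star p1) (star p2 * star p3) hsu (by rw [star_star, mul_comm, q1])
    (by rw [← hD]; ring)
  have hn : ∀ r : ℝ, normSq (s * r) = r ^ 2 := fun r => by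
    have : normSq s = 1 := by
      rw [Complex.star_def, Complex.mul_conj] at hsu; exact_mod_cast hsu
    rw [normSq_mul, this, normSq_ofReal]; ring
  have hp1 : normSq p1 = 1 := by
    rw [Complex.star_def, Complex.mul_conj] at q1; exact_mod_cast q1
  have hxz : x ^ 2 ≤ z ^ 2 := by
    rw [← hn, ← hn, ← hx, ← hz]
    set u := a0 * p1 with hu
    set v := a1 * p1 with hv
    have e1 : normSq (a0 + a1) = normSq (u + v) := by
      rw [hu, hv, ← add_mul, normSq_mul, hp1, mul_one]
    have e2 : normSq (star p1 + star p2 * star p3) = normSq (1 + u * v) := by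
      have : 1 + u * v = (star p1 + star p2 * star p3) * p1 := by
        rw [hu, hv]
        linear_combination (-1 + p1 * (star p2 * star p3)) * q1 + p1 * p1 * (hD.trans hs).symm
      rw [this, normSq_mul, hp1, mul_one]
    have uu : u.re ^ 2 + u.im ^ 2 = 1 := unit_iff (by
      rw [hu, star_mul']; linear_combination (p1 * star p1) * h0 + q1)
    have vv : v.re ^ 2 + v.im ^ 2 = 1 := unit_iff (by
      rw [hv, star_mul']; linear_combination (p1 * star p1) * h1 + q1)
    rw [e1, e2]
    simp only [normSq_apply, add_re, add_im, mul_re, mul_im, one_re, one_im]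
    have : (u.re ^ 2 + u.im ^ 2) * (v.re ^ 2 + v.im ^ 2) = 1 := by rw [uu, vv, one_mul]
    nlinarith
  obtain ⟨e, t, he, t0, t1, h⟩ := real_between x y z hxz
  refine ⟨e, t, he, t0, t1, ?_⟩
  rw [hx, hz, add_comm (star p1 * star p3), hy, h]
  push_cast; ring

theorem four_three (a : Fin 2 → ℂ) (ha : ∀ i, a i * star (a i) = 1) (M1 M2 M3 : Multiset ℂ)
    (u1 : ∀ x ∈ M1, x * star x = 1) (u2 : ∀ x ∈ M2, x * star x = 1)
    (u3 : ∀ x ∈ M3, x * star x = 1) (c1 : Even M1.card) (c2 : ¬ Even M2.card)
    (c3 : ¬ Even M3.card) (hp : a 0 * a 1 * (M1.prod * M2.prod * M3.prod) = 1)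
    (him : (a 0 * M1.prod).im * (a 1 * M1.prod).im ≤ 0) (x : ι → ℂ)
    (hx : Finset.univ.val.map x = {a 0} + {a 1} + (M1 + (M2 + M3))) : Four (diagonal x) := by
  have q1 := unit_prod M1 u1
  have q2 := unit_prod M2 u2
  have q3 := unit_prod M3 u3
  obtain ⟨e, t, he, t0, t1, ht⟩ := choose_t _ _ _ _ _ (ha 0) (ha 1) q1 q2 q3 hp him
  have he' : (e : ℂ) * e = 1 := by exact_mod_cast he
  have hes : star (e : ℂ) = e := by simp
  obtain ⟨n1, b1, d1, K1, L1, e1, k1, l1, p1, -⟩ := path 1 (by simp) (by simp) M1 u1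
  obtain ⟨n2, b2, d2, K2, L2, e2, k2, l2, -, p2⟩ := path e hes he' M2 u2
  obtain ⟨n3, b3, d3, K3, L3, e3, k3, l3, -, p3⟩ := path 1 (by simp) (by simp) M3 u3
  obtain ⟨f1, g1⟩ := p1 c1
  obtain ⟨f2, g2⟩ := p2 c2
  obtain ⟨f3, g3⟩ := p3 c3
  obtain ⟨V, W, hV, hW, hVW⟩ := two_by_two a ![star M1.prod, e * star M2.prod] ![star M3.prod, e]
    (fun i => by
      fin_cases i
      · simpa [mul_comm] using q1
      · show e * star M2.prod * star (e * star M2.prod) = 1
        rw [star_mul', hes, star_star]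
        linear_combination (M2.prod * star M2.prod) * he' + q2)
    (fun i => by
      fin_cases i
      · simpa [mul_comm] using q3
      · show (e : ℂ) * star (e : ℂ) = 1
        rw [hes, he']) t t0 t1
    (by
      show a 0 * a 1 = star M1.prod * (e * star M2.prod) * (star M3.prod * e)
      linear_combination (star M1.prod * star M2.prod * star M3.prod) * (hp - he') -
        a 0 * a 1 * (M2.prod * star M2.prod * (M3.prod * star M3.prod)) * q1 -
        a 0 * a 1 * (M3.prod * star M3.prod) * q2 - a 0 * a 1 * q3)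
    (by
      show a 0 + a 1 = t * (star M1.prod * star M3.prod + e * star M2.prod * e) +
        (1 - t) * (star M1.prod * e + e * star M2.prod * star M3.prod)
      rw [ht]
      linear_combination (-t * star M2.prod) * he')
  have two : ∀ u v : ℂ, Finset.univ.val.map ![u, v] = {u} + {v} := fun u v => by
    rw [Fin.univ_val_map]; rfl
  have mem3 : ∀ A B C : Multiset ℂ, (∀ x ∈ A, x * star x = 1) → (∀ x ∈ B, x * star x = 1) →
      (∀ x ∈ C, x * star x = 1) → ∀ x ∈ A + B + C, x * star x = 1 := by
    intro A B C hA hB hC x hx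
    simp only [Multiset.mem_add] at hx
    rcases hx with (h | h) | h
    exacts [hA x h, hB x h, hC x h]
  have := four_block a _ _ (Sum.elim b1 (Sum.elim d2 b3)) (Sum.elim d1 (Sum.elim b2 d3)) V W hV hW
    hVW
    (two_of_map _ ({1} + {1}) (K1 + L2 + K3) (by
      rw [map_elim, map_elim, map_elim, two, f3]
      rw [one_mul] at f1
      simp only [Multiset.map_add]
      calc _ = (Finset.univ.val.map b1 + {star M1.prod}) +
            (Finset.univ.val.map d2 + {e * star M2.prod}) + ({1} + (K3 + K3.map star)) := by abel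
        _ = _ := by rw [f1, g2]; abel)
      (by simp) (mem3 _ _ _ k1 l2 k3) (by simp) (Or.inl (by simp)))
    (two_of_map _ ({(e : ℂ)} + {(e : ℂ)}) (L1 + K2 + L3) (by
      rw [map_elim, map_elim, map_elim, two, g1, f2]
      rw [one_mul] at g3
      simp only [Multiset.map_add]
      calc _ = (Finset.univ.val.map d3 + {star M3.prod}) + {(e : ℂ)} + (L1 + L1.map star) +
            ({(e : ℂ)} + (K2 + K2.map star)) := by abel
        _ = _ := by rw [g3]; abel)
      (by simp [he']) (mem3 _ _ _ l1 k2 l3) (by simp [he']) (Or.inl (by simp)))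
  refine this.of_map ?_
  rw [hx, map_elim, ← e1, ← e2, ← e3, ← map_elim, ← map_elim, ← two]
  congr 2
  · ext i; fin_cases i <;> rfl
  · ext (i | i | i)
    · rfl
    · exact mul_comm _ _
    · rfl

theorem four_diag (a : ι → ℂ) (ha : ∀ i, a i * star (a i) = 1) (hp : ∏ i, a i = 1)
    (hn : 3 ≤ Fintype.card ι) : Four (diagonal a) := by
  have hu : ∀ G : Finset ι, ∀ x ∈ G.val.map a, x * star x = 1 := by
    intro G x hx
    obtain ⟨i, -, rfl⟩ := Multiset.mem_map.1 hx
    exact ha i
  have hpr : (Finset.univ.val.map a).prod = 1 := hp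
  have hcard : (Finset.univ.val.map a).card = Fintype.card ι := by simp
  by_cases h2 : Fintype.card ι % 4 = 2
  · obtain ⟨k, hk⟩ : ∃ k, Fintype.card ι = 4 * k + 6 := ⟨(Fintype.card ι - 6) / 4, by omega⟩
    obtain ⟨A, -, hA⟩ := Finset.exists_subset_card_eq (s := (Finset.univ : Finset ι))
      (n := 2 * k + 2 + 1) (by rw [Finset.card_univ]; omega)
    have hB : Aᶜ.card = 2 * k + 2 + 1 := by rw [Finset.card_compl]; omega
    obtain ⟨E, i, j, hij, hi, hj, hE, hg⟩ := swap_step (fun S => (∏ i ∈ S, a i).im) (2 * k + 2)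
      A Aᶜ ∅ hA hB disjoint_compl_right (by simp) (by simp) (by
        simp only [Finset.empty_union]
        have h1 : (∏ i ∈ A, a i) * ∏ i ∈ Aᶜ, a i = 1 := by rw [Finset.prod_mul_prod_compl, hp]
        have h3 : (∏ i ∈ A, a i) * star (∏ i ∈ A, a i) = 1 := unit_prod _ (hu A)
        have : ∏ i ∈ Aᶜ, a i = star (∏ i ∈ A, a i) := by
          linear_combination star (∏ i ∈ A, a i) * h1 - (∏ i ∈ Aᶜ, a i) * h3
        rw [this, Complex.star_def, conj_im]
        nlinarith [mul_self_nonneg (∏ i ∈ A, a i).im])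
    simp only [Finset.card_empty, zero_add] at hE
    have hjE : j ∉ E := hj
    have hi' : i ∉ insert j E := by simp [hij, hi]
    set T := insert i (insert j E) with hT
    have hTc : Tᶜ.card = 2 * k + 2 := by
      rw [Finset.card_compl, hT, Finset.card_insert_of_notMem hi', Finset.card_insert_of_notMem hj]
      omega
    obtain ⟨f, hf⟩ : Tᶜ.Nonempty := Finset.card_pos.1 (by omega)
    have hsplit : Finset.univ.val.map a =
        {a i} + {a j} + (E.val.map a + ((Tᶜ.erase f).val.map a + {a f})) := by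
      have e1 : (Finset.univ : Finset ι).val = T.val + Tᶜ.val := by
        rw [← Finset.disjUnion_val _ _ disjoint_compl_right]
        congr 1; ext; simp
      have e2 : T.val = {i} + {j} + E.val := by
        rw [hT, Finset.insert_val_of_notMem hi', Finset.insert_val_of_notMem hj, add_assoc]; rfl
      have e3 : Tᶜ.val = (Tᶜ.erase f).val + {f} := by
        rw [add_comm, Finset.erase_val]
        exact (Multiset.cons_erase hf).symm
      rw [e1, e2, e3]
      simp only [Multiset.map_add, Multiset.map_singleton]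
      abel
    refine four_three ![a i, a j] (fun r => by fin_cases r <;> exact ha _) (E.val.map a)
      ((Tᶜ.erase f).val.map a) {a f} (hu _) (hu _) (by simpa using ha f) ?_ ?_ (by simp) ?_ ?_ a
      hsplit
    · rw [Multiset.card_map, Finset.card_val, hE]; exact ⟨k + 1, by ring⟩
    · rw [Multiset.card_map, Finset.card_val, Finset.card_erase_of_mem hf, hTc, Nat.not_even_iff]
      omega
    · rw [hsplit] at hpr
      simp only [Multiset.prod_add, Multiset.prod_singleton] at hpr ⊢
      rw [← hpr]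
      show a i * a j * _ = _
      ring
    · simp only [Finset.prod_insert hi, Finset.prod_insert hj] at hg
      exact hg
  · obtain ⟨n, b, c, K, L, e, k, l, p1, p2⟩ := path 1 (by simp) (by simp) _ (hu Finset.univ)
    have hn' : n = Fintype.card ι := by
      have := congrArg Multiset.card e
      simpa using this
    refine (four_mul b c ?_ ?_).of_map e.symm
    all_goals
      rw [hpr, hcard] at p1 p2
      simp only [star_one, mul_one] at p1 p2
      by_cases hE : Even (Fintype.card ι)
    · have h4 : 4 ∣ Fintype.card (Fin n) := by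
        rw [Fintype.card_fin, hn']; rw [Nat.even_iff] at hE; omega
      refine two_of_map b 0 K ?_ (by simp) k (by simp) (Or.inr h4)
      have := (p1 hE).1
      rw [add_comm] at this
      rw [zero_add]; exact add_left_cancel this
    · exact two_of_map b {1} K (p2 hE).1 (by simp) k (by simp) (Or.inl (by simp))
    · have h4 : 4 ∣ Fintype.card (Fin n) := by
        rw [Fintype.card_fin, hn']; rw [Nat.even_iff] at hE; omega
      exact two_of_map c 0 L (by rw [zero_add]; exact (p1 hE).2) (by simp) l (by simp) (Or.inr h4)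
    · have h := (p2 hE).2
      have h1 : (1 : ℂ) ∈ L := by
        have : (1 : ℂ) ∈ L + L.map star := by rw [← h]; simp
        rcases Multiset.mem_add.1 this with h' | h'
        · exact h'
        · obtain ⟨z, hz, hz1⟩ := Multiset.mem_map.1 h'
          have : z = 1 := by rw [← star_star z, hz1, star_one]
          exact this ▸ hz
      obtain ⟨L', rfl⟩ := Multiset.exists_cons_of_mem h1
      refine two_of_map c {1} L' ?_ (by simp) (fun x hx => l x (by simp [hx])) (by simp)
        (Or.inl (by simp))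
      rw [Multiset.map_cons, star_one, ← Multiset.singleton_add, ← Multiset.singleton_add] at h
      have : Finset.univ.val.map c + {1} = {1} + (L' + L'.map star) + {1} := by rw [h]; abel
      exact add_right_cancel this

theorem four_su (A : Matrix ι ι ℂ) (hA : Aᴴ * A = 1) (hd : A.det = 1) (hn : 3 ≤ Fintype.card ι) :
    Four A := by
  obtain ⟨U, d, hU, h⟩ := diag_unitary A hA
  have hU2 : U * Uᴴ = 1 := mul_eq_one_comm.1 hU
  have hdu : (diagonal d)ᴴ * diagonal d = 1 := by
    have e : Aᴴ = U * (diagonal d)ᴴ * Uᴴ := by rw [h]; simp [conjTranspose_mul, Matrix.mul_assoc]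
    have e2 : U * ((diagonal d)ᴴ * diagonal d) * Uᴴ = 1 := by rw [← conj_mul hU, ← e, ← h, hA]
    have : Uᴴ * (U * ((diagonal d)ᴴ * diagonal d) * Uᴴ) * U = Uᴴ * 1 * U := by rw [e2]
    simp only [← Matrix.mul_assoc, hU, Matrix.one_mul, Matrix.mul_one] at this
    rwa [Matrix.mul_assoc, hU, Matrix.mul_one] at this
  rw [h]
  refine (four_diag d (fun i => ?_) ?_ hn).conj hU
  · have := congrFun (congrFun hdu i) i
    rw [diagonal_conjTranspose, diagonal_mul_diagonal] at this
    simpa [mul_comm] using this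
  · rw [h, det_mul, det_mul, mul_right_comm, ← det_mul, hU2] at hd
    simpa using hd

end Pool.Agent.H.MP_ca7eb7_al
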